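import Pool.Agent.H73.KG.Stmts

/-! Module COV of project KG: decomposition of the covariance along the channel. -/

set_option autoImplicit false

open MeasureTheory Set Filter Topology

namespace Pool.Agent.H73.KG

open Pool.Agent.H84 Pool.Agent.H84.Sym Pool.Agent.H84.Sym.P2x Pool.Agent.H19.KL

theorem cov_gc_li {E : Type} [NormedAddCommGroup E] [InnerProductSpace ℝ E] (e : E) :
    GC (li e) := by
  refine ⟨continuous_const.inner continuous_id, ‖e‖, 1, fun x => ?_⟩
  have h1 := abs_real_inner_le_norm e x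
  have h2 := Real.add_one_le_exp ‖x‖
  have h3 : ‖x‖ ≤ Real.exp (1 * ‖x‖) := by rw [one_mul]; linarith
  exact h1.trans (mul_le_mul_of_nonneg_left h3 (norm_nonneg e))

theorem cov_rg_sum {E : Type} [NormedAddCommGroup E] [InnerProductSpace ℝ E]
    (hc : ∀ c : ℝ, RG (fun (_ : ℝ) (_ : E) => c))
    (hadd : ∀ F G : ℝ → E → ℝ, RG F → RG G → RG (fun s θ => F s θ + G s θ))
    {ι : Type} (S : Finset ι) (F : ι → ℝ → E → ℝ) (hF : ∀ i, RG (F i)) :
    RG (fun s θ => ∑ i ∈ S, F i s θ) := by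
  classical
  induction S using Finset.induction_on with
  | empty => simpa using hc 0
  | insert a S ha ih =>
    have := hadd _ _ (hF a) ih
    simpa [Finset.sum_insert ha] using this

theorem cov_thm (E : Type) [NormedAddCommGroup E] [InnerProductSpace ℝ E]
    [FiniteDimensional ℝ E] [MeasurableSpace E] [BorelSpace E]
    (hPWB : PWBStmt E) (hRGC : RGCStmt E) (hRGP : RGPStmt E) (hDYN : DYNStmt E)
    (hBAY : BAYStmt E) (hCVR : CVRStmt E) : COVStmt E := by
  intro U t hU f g hf hg ι _ b T hT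
  obtain ⟨hc, hadd, hmul, -, hgen, hreg, hcongr⟩ := hRGC
  have hfg : GC (fun x => f x * g x) := GC.mul hf hg
  obtain ⟨r1, d1, g1⟩ := hRGP U t hU _ hfg
  obtain ⟨r2, d2, g2⟩ := hRGP U t hU _ hf
  obtain ⟨r3, d3, g3⟩ := hRGP U t hU _ hg
  have r4 : RG (fun s θ => pm U s θ f * pm U s θ g) := hmul _ _ r2 r3
  have r5 : RG (fun s θ => (-1 : ℝ) * (pm U s θ f * pm U s θ g)) := hmul _ _ (hc (-1)) r4
  have r6 : RG (fun s θ => pm U s θ (fun x => f x * g x) +
    (-1 : ℝ) * (pm U s θ f * pm U s θ g)) := hadd _ _ r1 r5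
  -- the function `H`
  have rH : RG (fun s θ => ∑ i, cv (pw U s θ) f (li (b i)) * cv (pw U s θ) g (li (b i))) := by
    apply cov_rg_sum hc hadd
    intro i
    exact hmul _ _ (hCVR U t hU _ _ hf (cov_gc_li _)) (hCVR U t hU _ _ hg (cov_gc_li _))
  obtain ⟨-, cH, -⟩ := hDYN U t hU _ rH
  have hint : IntervalIntegrable (fun s => EX U s (fun θ => ∑ i, cv (pw U s θ) f (li (b i)) *
      cv (pw U s θ) g (li (b i)))) volume 0 T := by
    apply ContinuousOn.intervalIntegrable
    apply cH.mono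
    intro s hs
    rw [uIcc_of_le hT.le] at hs
    exact hs.1
  refine ⟨hint, ?_⟩
  obtain ⟨dG, cG, zG⟩ := hDYN U t hU _ r6
  -- the generator
  have hgenG : ∀ s : ℝ, 0 < s → ∀ θ : E, gen b U (fun s θ => pm U s θ (fun x => f x * g x) +
      (-1 : ℝ) * (pm U s θ f * pm U s θ g)) s θ =
      -∑ i, cv (pw U s θ) f (li (b i)) * cv (pw U s θ) g (li (b i)) := by
    intro s hs θ
    rw [(hgen _ _ U r1 r5 ι b s θ hs).1, (hgen _ _ U (hc (-1)) r4 ι b s θ hs).2,
      (hgen _ _ U r2 r3 ι b s θ hs).2, g1 ι b s θ hs, g2 ι b s θ hs, g3 ι b s θ hs]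
    have e0 : gen b U (fun (_ : ℝ) (_ : E) => (-1 : ℝ)) s θ = 0 := by
      unfold gen
      have hD : ∀ e : E, D e (fun _ : E => (-1 : ℝ)) = fun _ => 0 := by
        intro e
        funext x
        simp [D]
      have hD0 : ∀ e : E, D e (fun _ : E => (0 : ℝ)) = fun _ => 0 := by
        intro e
        funext x
        simp [D]
      simp [hD, hD0]
    have e1 : ∀ i, D (b i) (fun _ : E => (-1 : ℝ)) θ = 0 := by
      intro i
      simp [D]
    have e2 : ∀ i, D (b i) (fun θ => pm U s θ f) θ = cv (pw U s θ) f (li (b i)) := by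
      intro i
      exact (d2 s θ (b i) hs.le).2
    have e3 : ∀ i, D (b i) (fun θ => pm U s θ g) θ = cv (pw U s θ) g (li (b i)) := by
      intro i
      exact (d3 s θ (b i) hs.le).2
    rw [e0]
    simp only [e1, e2, e3]
    simp
  -- EX of negation
  have hEX : ∀ s : ℝ, 0 < s → EX U s (gen b U (fun s θ => pm U s θ (fun x => f x * g x) +
      (-1 : ℝ) * (pm U s θ f * pm U s θ g)) s) =
      -EX U s (fun θ => ∑ i, cv (pw U s θ) f (li (b i)) * cv (pw U s θ) g (li (b i))) := by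
    intro s hs
    have h1 : (gen b U (fun s θ => pm U s θ (fun x => f x * g x) +
      (-1 : ℝ) * (pm U s θ f * pm U s θ g)) s) = fun θ => (-1 : ℝ) *
        (∑ i, cv (pw U s θ) f (li (b i)) * cv (pw U s θ) g (li (b i))) := by
      funext θ
      rw [hgenG s hs θ]
      ring
    rw [h1, (hBAY U t hU s hs.le).2.2.1]
    ring
  have hFTC : ∫ s in (0:ℝ)..T, -EX U s (fun θ => ∑ i, cv (pw U s θ) f (li (b i)) *
      cv (pw U s θ) g (li (b i))) = EX U T (fun θ => pm U T θ (fun x => f x * g x) +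
      (-1 : ℝ) * (pm U T θ f * pm U T θ g)) - EX U 0 (fun θ => pm U 0 θ (fun x => f x * g x) +
      (-1 : ℝ) * (pm U 0 θ f * pm U 0 θ g)) := by
    refine intervalIntegral.integral_eq_sub_of_hasDerivAt_of_le hT.le
      (f := fun s => EX U s (fun θ => pm U s θ (fun x => f x * g x) +
        (-1 : ℝ) * (pm U s θ f * pm U s θ g))) (cG.mono fun s hs => hs.1) ?_ hint.neg
    intro s hs
    have := dG ι b s hs.1
    rw [hEX s hs.1] at this
    exact this
  have hcvpm : ∀ s : ℝ, 0 ≤ s → ∀ θ : E, cv (pw U s θ) f g = pm U s θ (fun x => f x * g x) +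
      (-1 : ℝ) * (pm U s θ f * pm U s θ g) := by
    intro s hs θ
    have e := (hPWB U t hU).2.1 s θ hs
    simp only [cv]
    rw [e (fun x => f x * g x), e f, e g]
    ring
  have hT' : EX U T (fun θ => cv (pw U T θ) f g) = EX U T (fun θ => pm U T θ (fun x => f x * g x) +
      (-1 : ℝ) * (pm U T θ f * pm U T θ g)) := by
    congr 1
    funext θ
    exact hcvpm T hT.le θ
  have h0 : EX U 0 (fun θ => pm U 0 θ (fun x => f x * g x) +
      (-1 : ℝ) * (pm U 0 θ f * pm U 0 θ g)) = cv U f g := by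
    rw [zG, ← hcvpm 0 le_rfl 0, (hPWB U t hU).2.2]
  rw [hT']
  rw [h0, intervalIntegral.integral_neg] at hFTC
  linarith

end Pool.Agent.H73.KG
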